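import Mathlib
import Pool.Agent.T9h49.QS.Sep

/-!
# Exponential lower bounds for Frege refutations with lines of less than quadratic length

The lines of the refutations are arbitrary formulas over conjunction, disjunction and negation, of
any depth, and the rules are any sound rules with a bounded number of premises; so all Frege systems
are covered. Only the length of the lines is restricted. There are inputs with `n = 33 m q`
variables (`F m q` consists of `m` formulas of size `O(q²)`, `G m q` is a set of `m 2 ^ O(q)` clauses
of width `O(q)`) such that refutations with lines of at most `ε m q²` occurrences of variables have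
at least `2 ^ m` lines. This is optimal up to the factor `ε`, as `2 m` lines suffice if they may have
length `O(m q²)` (conjunctions of members of `F m q`). In each Frege system `F m q` has a refutation
with `O(n log n)` lines of length `O(n²)`, so this is a hierarchy by the length of the lines inside
each Frege system. As `m q²` is `n² / m` up to a constant factor,
for `q = m ^ k` these are the lines with at most `ε' n ^ (2 - 1 / (k + 1))` occurrences. For `q` about
`log m` the clauses `G m q` have polynomial size in `m`, and the lines may have `ε' n log n`
occurrences. More generally it suffices that each line becomes that short on each branch of some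
decision tree of depth at most `ε m q`, or that its Boolean function has little Fourier weight above
the level `ε m q`. The formulas say that the sum modulo two of the variables at each vertex of a
sparse expanding graph with `m` vertices is odd, where each edge has a block of `q` variables.

Proof. Formulas with `s` leaves have witness vectors (a solution of the dual of the adversary bound)
of size `√s`, by induction on the formula; powers of the product of the two reflections belonging to
these vectors give polynomials of degree `O(√s)` which approximate the function up to `1 / 10`
(Reichardt's theorem for quantum query complexity has the same basis). A formula of size `s` is the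
composition of a function of `O(t)` variables with formulas of size `O(s / t)`; a robust composition
of the polynomials, with telescoping sums of majority polynomials, has degree `O(√(s t))` and error
`2 ^ (-t)`. So with `t = 99 m` the Fourier weight of each line above the level `ε' m q` is at most
`4 ^ (-t)`. For a random restriction which leaves one variable of each block, the weight above the
level `ε'' m` becomes at most `2 ^ (-K m)` with a large constant `K`, and as the Fourier coefficients
of a Boolean function of `33 m` variables are multiples of `2 ^ (- 33 m)`, all lines become functions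
of exact degree at most `ε'' m`, if there are less than `2 ^ m` lines. Such refutations of the parity
conditions of an expanding graph do not exist, by linear functionals as in the lower bounds for sums
of squares.
-/

set_option autoImplicit false

namespace Pool.Agent.Results.MP_51bb46_lc.QuadraticLines

open Finset
open Pool.Agent.T9h49.RK (PForm Rule Refutes sizeL Unsat)
open Pool.Agent.T9h90.FT (tailW)
open Pool.Agent.T9h82.SL (Short)
open Pool.Agent.T9h90.EF (Frege)
open Pool.Agent.T9h49.QS (cut)

/-- There are unsatisfiable sets of formulas `F m q` and of clauses `G m q` in `33 m q` variables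
(`m` odd), of total size at most `C m q²` and `m 2 ^ (C q)`, such that `F m q` has a refutation with
at most `2 m` lines of size at most `C m q²`, by sound rules with at most two premises, and in each
Frege system `Φ` a refutation with at most `K Φ m q (log (m q) + 1)` lines of size at most
`K Φ (m q)²`, but every
refutation of `F m q ∪ G m q` by sound rules with at most `r` premises has at least `2 ^ m` lines,
if each line, with all variables but the first `33 m q` set to false, is computed by a decision tree of depth at most `ε m q` with formulas at the leaves
which have at most `ε m q²` occurrences of variables, or has Fourier weight at most `2 ^ (-m / ε)` on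
the levels at least `ε m q`; here `ε > 0` depends only on `r`, and `m` is large. -/
theorem result : ∃ (C : ℕ) (K : Set Rule → ℕ) (F G : ℕ → ℕ → List PForm),
    (∀ m q : ℕ, Odd m → 3 ≤ m → 1 ≤ q →
      (∀ A ∈ F m q, A.vars ⊆ range (33 * m * q) ∧ A.vars.card ≤ C * q ∧ A.size ≤ C * q ^ 2) ∧
      (F m q).length = m ∧ Unsat (F m q) ∧
      (∀ A ∈ G m q, A.IsClause ∧ A.vars ⊆ range (33 * m * q) ∧ A.size ≤ C * q) ∧
      sizeL (G m q) ≤ m * 2 ^ (C * q) ∧ Unsat (G m q) ∧
      (∃ π : List PForm, Refutes {ρ | ρ.Sound ∧ ρ.prem.length ≤ 2} (F m q) π ∧
        π.length ≤ 2 * m ∧ ∀ A ∈ π, A.size ≤ C * (m * q ^ 2)) ∧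
      ∀ Φ : Set Rule, Frege Φ →
        ∃ π : List PForm, Refutes Φ (F m q) π ∧ PForm.and (.var 0) (.neg (.var 0)) ∈ π ∧
          π.length ≤ K Φ * (m * q * (Nat.log 2 (m * q) + 1)) ∧
          ∀ A ∈ π, A.size ≤ K Φ * (m * q) ^ 2) ∧
    ∀ r : ℕ, ∃ ε : ℝ, 0 < ε ∧ ∃ m0 : ℕ, ∀ m q : ℕ, Odd m → m0 ≤ m → 1 ≤ q →
      ∀ Φ : Set Rule, (∀ ρ ∈ Φ, ρ.Sound ∧ ρ.prem.length ≤ r) → ∀ π : List PForm,
        Refutes Φ (F m q ++ G m q) π →
        (∀ A ∈ π, (∃ d s : ℕ, (d : ℝ) ≤ ε * (m * q) ∧ (s : ℝ) ≤ ε * (m * q ^ 2) ∧
            Short s d (fun a => A.eval (cut (33 * m * q) a))) ∨
          tailW (33 * m * q) A (ε * (m * q)) ≤ 2 ^ (-((m : ℝ) / ε))) →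
        2 ^ m ≤ π.length := by
  obtain ⟨C, K, F, G, h1, h2⟩ := Pool.Agent.T9h49.QS.main
  refine ⟨C, K, F, G, fun m q hm hm3 hq => ?_, h2⟩
  obtain ⟨⟨a1, a2, a3⟩, ⟨b1, b2, b3⟩, c1, d1⟩ := h1 m q hm hm3 hq
  exact ⟨a3, a1, a2, b3, b1, b2, c1, fun Φ hΦ => (d1 Φ hΦ).2.2⟩

end Pool.Agent.Results.MP_51bb46_lc.QuadraticLines
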