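import Mathlib
import Pool.Agent.T9h20.Ded

/-!
# Size versus height of refutations with short lines, for arbitrary sound deduction systems
-/

set_option autoImplicit false

namespace Pool.Agent.Results.MP_51bb46_lc.SizeHeightTradeoff

open Pool.Agent.T9h20

/-- There is a constant `K` with the following property. Let `n, L, k, M ≥ 1` satisfy
`K (M log₂ (n + L + k))² ≤ n`, and let `D` be any deduction system for CNF formulas in `n`
variables with at most `2 ^ L` different lines which is sound (only unsatisfiable formulas have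
refutations), where a rule may have up to `k + 1` premises and a line may be obtained directly
from up to `L` clauses. Then some unsatisfiable CNF formula `φ` with at most
`2 ^ (K (M log₂ (n + L + k))²)` clauses, all of width at most `K (M log₂ (n + L + k))²`, has this
property: if `m = (1 - 1/M) n`, then every refutation of `φ` of size `S` and height `h` satisfies
`k h ≥ m` and `k h ≥ m² / (2 log₂ (4 k S)) + m / 2`. -/
theorem result : ∃ K : ℕ, ∀ n L k M : ℕ, 1 ≤ n → 1 ≤ L → 1 ≤ k → 1 ≤ M →
    K * (M * Nat.log 2 (n + L + k)) ^ 2 ≤ n →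
    ∀ D : DedSystem n, Finite D.Item → Nat.card D.Item ≤ 2 ^ L → D.Sound L (k + 1) →
    ∃ φ : CNF n, Unsat φ ∧ φ.card ≤ 2 ^ (K * (M * Nat.log 2 (n + L + k)) ^ 2) ∧
      (∀ C ∈ φ, C.card ≤ K * (M * Nat.log 2 (n + L + k)) ^ 2) ∧
      ∀ (π : Derivation D L (k + 1) φ D.goal) (m : ℝ), m = (1 - 1 / (M : ℝ)) * n →
        m ≤ k * π.height π.last ∧
        m ^ 2 / (2 * Real.logb 2 (4 * k * π.size)) + m / 2 ≤ k * π.height π.last := by
  obtain ⟨K, hK⟩ := ded_main
  refine ⟨K, ?_⟩
  intro n L k M hn hL hk hM hbig D hfin hcard hsound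
  obtain ⟨φ, h1, h2, h3, h4⟩ := hK n L k M hn hL hk hM hbig D hfin hcard hsound
  refine ⟨φ, h1, h2, h3, ?_⟩
  intro π m hm
  have hMr : (1 : ℝ) ≤ M := by exact_mod_cast hM
  have hm0 : 0 ≤ m := by
    rw [hm]
    apply mul_nonneg _ (Nat.cast_nonneg _)
    have : 1 / (M : ℝ) ≤ 1 := by
      rw [div_le_one (by linarith)]
      exact hMr
    linarith
  obtain ⟨lam, hlam⟩ : ∃ lam, lam = Real.logb 2 (4 * k * π.size) := ⟨_, rfl⟩
  have hS : 1 ≤ π.size := Nat.lt_of_le_of_lt (Nat.zero_le _) π.last.2
  have hkr : (1 : ℝ) ≤ k := by exact_mod_cast hk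
  have hSr : (1 : ℝ) ≤ π.size := by exact_mod_cast hS
  have hlam2 : 0 < lam := by
    rw [hlam]
    apply Real.logb_pos (by norm_num)
    have : (1 : ℝ) ≤ k * π.size := by
      calc (1 : ℝ) = 1 * 1 := by norm_num
        _ ≤ k * π.size := mul_le_mul hkr hSr (by norm_num) (by linarith)
    linarith
  have h5 : ∀ r : ℕ, (r : ℝ) * m ≤ k * π.height π.last + (r.choose 2 : ℕ) * lam := by
    intro r
    have h6 := h4 π r
    rw [← hm] at h6
    have e1 : (4 : ℝ) * k * π.size = 4 * (k * π.size) := by ring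
    rw [hlam, e1]
    exact h6
  constructor
  · have h6 := h5 1
    simpa using h6
  · rw [← hlam]
    obtain ⟨t, ht⟩ : ∃ t, t = m / lam := ⟨_, rfl⟩
    have ht0 : 0 ≤ t := by rw [ht]; positivity
    have hmt : m = t * lam := by rw [ht]; field_simp
    have hf1 := Nat.floor_le ht0
    have hf2 := Nat.lt_floor_add_one t
    obtain ⟨f, hf⟩ : ∃ f, f = ⌊t⌋₊ := ⟨_, rfl⟩
    rw [← hf] at hf1 hf2
    have h6 := h5 (f + 1)
    have hch : (((f + 1).choose 2 : ℕ) : ℝ) = (f + 1) * f / 2 := by
      rw [Nat.cast_choose_two]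
      push_cast
      ring
    rw [hch] at h6
    push_cast at h6
    have h7 : m ^ 2 / (2 * lam) = t * m / 2 := by
      rw [ht]
      field_simp
    rw [h7]
    have h8 : (t - f) * (f + 1 - t) * lam ≥ 0 := by
      apply mul_nonneg _ hlam2.le
      apply mul_nonneg <;> linarith
    have h9 : (f + 1) * m - (f + 1) * f / 2 * lam - (t * m / 2 + m / 2)
        = (t - f) * (f + 1 - t) * lam / 2 := by
      rw [hmt]
      ring
    linarith

end Pool.Agent.Results.MP_51bb46_lc.SizeHeightTradeoff
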