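import Mathlib
import Pool.Agent.T9h47.SG.Final
import Pool.Agent.T9h86.SymUp.Limit

/-!
# A gap theorem for symmetric Frege proofs of unbounded depth

A first-order sentence `φ` (with relation symbols and equality) and a finite universe `B` give a
propositional formula whose variables are the atomic sentences `r(b)`: quantifiers over `B` become
conjunctions and disjunctions. If `φ` has no model with universe `B` then this formula is
unsatisfiable. Most of the formulas considered in proof complexity which express a combinatorial
principle are of this form: the pigeonhole principle, the ordering principle, the induction
principle, the Tseitin-like parity principle, the dense linear ordering principle, and so on.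

We consider refutations in the sequent calculus whose formulas are the nodes of a circuit with
negations and with conjunctions and disjunctions of finite sets of nodes, of any depth. So they
include Frege and extended Frege refutations. A refutation is symmetric with respect to a subset `H`
of the universe if every permutation of `H` extends to an automorphism of the refutation.

* If `φ` has an infinite model then symmetric refutations have exponential size: if the refutation
  of size `s` is symmetric with respect to `H` then `H` has only `O(log s)` elements.
* If `φ` has no infinite model then for all large finite universes there are refutations of
  polynomial size which are symmetric with respect to the whole universe.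

Proof of the lower bound. All formulas and sequents of the refutation have small supports in `H`, by
a theorem on subgroups of small index of the symmetric group. The truth of a formula is defined by
recursion, relative to partial embeddings of the universe into the infinite model whose domain
contains its support: a conjunction is true if its members are true for all small partial embeddings
which are compatible with the given one. By the symmetry the values for compatible partial
embeddings agree, all rules are sound, and the translation of `φ` has the truth value of `φ` in the
infinite model.

Proof of the upper bound. Take all sequents of instances of subformulas of `φ` with at most `k`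
elements of the universe. If the empty sequent is not derivable inside this set for any `k` then
Henkin's construction, with bounds on the witnesses, gives truth assignments for larger and larger
universes whose limit along an ultrafilter is an infinite model.
-/

set_option autoImplicit false

namespace Pool.Agent.Results.MP_51bb46_lc.SymmetricGap

open Pool.Agent.T9h47.SF Pool.Agent.T9h47.SG

theorem result {R : Type} (ar : R → ℕ) (φ : Fml ar 0) :
    -- `φ` has an infinite model: exponential lower bound
    ((∃ (A : Type) (_ : Infinite A) (I : ∀ r, (Fin (ar r) → A) → Prop), φ.Sat I Fin.elim0) ∧
      ∀ (B : Type) [Fintype B] [DecidableEq B] (H : Finset B) (P : Pf (Vr ar B)),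
        RefutesFml P φ → SymOn P H → 2 ^ H.card ≤ 2 ^ (52 + 5 * φ.qr) * P.size ^ 50) ∨
    -- `φ` has no infinite model: polynomial upper bound
    ((∀ (A : Type) [Infinite A] (I : ∀ r, (Fin (ar r) → A) → Prop), ¬ φ.Sat I Fin.elim0) ∧
      ∃ C : ℕ, ∀ (B : Type) [Fintype B] [DecidableEq B], C ≤ Fintype.card B →
        ∃ P : Pf (Vr ar B), RefutesFml P φ ∧ SymOn P Finset.univ ∧
          P.size ≤ Fintype.card B ^ C) := by
  by_cases h : ∃ (A : Type) (_ : Infinite A) (I : ∀ r, (Fin (ar r) → A) → Prop),
      φ.Sat I Fin.elim0
  · refine Or.inl ⟨h, ?_⟩
    obtain ⟨A, _, I, hφ⟩ := h
    intro B _ _ H P href hsym
    exact main_gap P H φ I hφ href hsym
  · have hno : ∀ (A : Type) [Infinite A] (I : ∀ r, (Fin (ar r) → A) → Prop),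
        ¬ φ.Sat I Fin.elim0 := fun A hA I hI => h ⟨A, hA, I, hI⟩
    exact Or.inr ⟨hno, Pool.Agent.T9h86.SymUp.sym_upper φ hno⟩

end Pool.Agent.Results.MP_51bb46_lc.SymmetricGap
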