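import Mathlib
import Pool.Agent.T9h47.SF.Final

/-!
# Symmetric refutations of the pigeonhole principle, of any depth, have exponential size

We consider refutations in the sequent calculus whose formulas are the nodes of a circuit with
negations and with conjunctions and disjunctions of finite sets of nodes, of any depth. So they
include Frege and extended Frege refutations. The size is the number of formulas and sequents. A
refutation is symmetric with respect to a set `H` of holes if every permutation of the holes in `H`
extends to an automorphism of the refutation, like the permutations of the universe for symmetric
circuits.

If a refutation of the functional and onto pigeonhole principle of size `s` is symmetric with respect
to `H`, then `H` has only `O(log s)` elements. The general Frege systems have refutations of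
polynomial size (Buss).

Proof. A subgroup of index less than `2 ^ r` of the symmetric group on `H` contains all even
permutations which fix the elements of a set of size `10 r`: among pairwise disjoint blocks of five
elements there are at most `2 r` blocks for which it does not contain the alternating group of the
block, since otherwise one finds `2 ^ r` cosets; and alternating groups of degree five are perfect.
So all formulas and sequents have small supports. The truth of a formula relative to partial
matchings which contain its support is defined by recursion, a conjunction is true if its members
are true for all compatible small partial matchings. By the symmetry the values for compatible
partial matchings agree, and all rules are sound.
-/

set_option autoImplicit false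

namespace Pool.Agent.Results.MP_51bb46_lc.SymmetricProofs

open Pool.Agent.T9h47.SF

theorem result (A B : Type) [Fintype A] [Fintype B] [DecidableEq A] [DecidableEq B]
    (hAB : Fintype.card B < Fintype.card A) (H : Finset B) (P : Pf (A × B))
    (href : P.Refutes {c | Php A B c}) (hsym : P.SymmetricOn H) :
    2 ^ H.card ≤ 2 ^ 52 * P.size ^ 50 :=
  main_sym P H hAB href hsym

end Pool.Agent.Results.MP_51bb46_lc.SymmetricProofs
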